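import Pool.Agent.H49.SW.Fin
import Pool.Agent.H75.SW.R1
import Pool.Agent.H35.SW.R2
import Pool.Agent.H76.SW.R3
import Pool.Agent.H25.SW.R4
import Pool.Agent.H62.SW.R5
import Pool.Agent.H89.SW.R6
import Pool.Agent.H74.SW.R7
import Pool.Agent.H57.SW.R8
import Pool.Agent.H35.FS.Max
import Pool.Agent.H35.FC.Gf
import Pool.Agent.H35.FC.Tree

set_option autoImplicit false

/-!
# The dichotomy for finite maximal codes
-/

namespace Pool.Agent.H49.SW

open Finset MvPolynomial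
open Pool.Agent.H35
open Pool.Agent.H35.FC (IsCode IsPrefixCode gf)
open Pool.Agent.H72.OF (os)

theorem short {α : Type} [Fintype α] [DecidableEq α] (C : Finset (List α))
    (hC : IsCode (C : Set (List α)))
    (hmax : ∀ D : Set (List α), IsCode D → (C : Set (List α)) ⊆ D → D = C) :
    (∃ D : Finset (List α), IsPrefixCode (D : Set (List α)) ∧
      ∃ F : List α → List α, Set.BijOn F C D ∧ ∀ w ∈ C, (F w).Perm w) ∨
    ∃ F G : MvPolynomial α ℤ, F ≠ 0 ∧ G ≠ 0 ∧ 1 - gf C = os α * (F * G) ∧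
      3 ≤ F.totalDegree ∧ 3 ≤ G.totalDegree ∧ 7 ≤ F.totalDegree + G.totalDegree :=
  shortG H75.SW.sRev H76.SW.sgen (H25.SW.degA H35.SW.sClimb) H62.SW.sDrop H89.SW.slin
    (H74.SW.quad H89.SW.slin) H57.SW.two H86.OG.tilP H35.FS.maxP H35.FC.gfP H35.FC.treeP C hC hmax

theorem degree_le_any {α : Type} [Fintype α] [DecidableEq α] {C : Finset (List α)}
    (h : ∀ w ∈ C, w.length ≤ 7) {F G : MvPolynomial α ℤ} (hF : F ≠ 0) (hG : G ≠ 0)
    (hC : 1 - gf C = os α * (F * G)) (h3 : 3 ≤ F.totalDegree) :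
    F.totalDegree + G.totalDegree ≤ 6 := by
  rcases isEmpty_or_nonempty α with h0 | ⟨⟨y⟩⟩
  · exfalso
    rw [MvPolynomial.eq_C_of_isEmpty F, totalDegree_C] at h3
    omega
  · exact degree_le y (n := 6) h hF hG hC

end Pool.Agent.H49.SW
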