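import Pool.Agent.H49.SW.Stm

set_option autoImplicit false

/-!
# The coefficients of `F G`, assembly
-/

namespace Pool.Agent.H49.SW

open Finset MvPolynomial
open Pool.Agent.H35.FC (gf)
open Pool.Agent.H72.OF (os coeff_gf gf_ne_zero)

/-- Nonnegative coefficients. -/
def NN {α : Type} (p : MvPolynomial α ℤ) : Prop := ∀ m, 0 ≤ coeff m p

theorem NN.mul {α : Type} {p q : MvPolynomial α ℤ} (hp : NN p) (hq : NN q) : NN (p * q) := by
  classical
  intro m
  rw [coeff_mul]
  exact Finset.sum_nonneg fun x _ => mul_nonneg (hp _) (hq _)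

theorem NN.add {α : Type} {p q : MvPolynomial α ℤ} (hp : NN p) (hq : NN q) : NN (p + q) := by
  intro m
  rw [coeff_add]
  exact add_nonneg (hp m) (hq m)

theorem NN.sum {α ι : Type} {s : Finset ι} {p : ι → MvPolynomial α ℤ} (hp : ∀ i ∈ s, NN (p i)) :
    NN (∑ i ∈ s, p i) := by
  intro m
  rw [coeff_sum]
  exact Finset.sum_nonneg fun i hi => hp i hi m

theorem NN.X {α : Type} (x : α) : NN (X x : MvPolynomial α ℤ) := by
  classical
  intro m
  rw [coeff_X]
  split_ifs <;> norm_num

theorem NN.one {α : Type} : NN (1 : MvPolynomial α ℤ) := by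
  classical
  intro m
  rw [coeff_one]
  split_ifs <;> norm_num

theorem NN.gf {α : Type} [DecidableEq α] (L : Finset (List α)) : NN (gf L) := by
  unfold Pool.Agent.H35.FC.gf
  refine NN.sum fun w hw => ?_
  clear hw
  induction w with
  | nil => simpa using NN.one
  | cons x w ih =>
    rw [List.map_cons, List.prod_cons]
    exact (NN.X x).mul ih

section
variable {α : Type} [Fintype α] [DecidableEq α] {F G : MvPolynomial α ℤ}
  {a b : List α → MvPolynomial α ℤ} {e e' : List α → ℤ} {M : List α → List α → Finset (List α)}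

theorem const_a (h : Pk F G a b e e' M) (g : List α) : constantCoeff (a g) = 1 - e g := by
  have h1 := congrArg constantCoeff (h.recA g)
  simp only [map_sum, map_mul, map_add, map_sub, map_one, constantCoeff_X, zero_mul,
    Finset.sum_const_zero, constantCoeff_C, h.G0, mul_one] at h1
  linarith

theorem const_b (h : Pk F G a b e e' M) (f : List α) : constantCoeff (b f) = 1 - e' f := by
  have h1 := congrArg constantCoeff (h.recB f)
  simp only [map_sum, map_mul, map_add, map_sub, map_one, constantCoeff_X, zero_mul,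
    Finset.sum_const_zero, constantCoeff_C, h.F0, mul_one] at h1
  linarith

theorem const_nn {x : ℤ} (h : x = 0 ∨ x = 1) : 0 ≤ 1 - x := by
  rcases h with h | h <;> rw [h] <;> norm_num

omit [Fintype α] [DecidableEq α] in
theorem deg_sub_one {p : MvPolynomial α ℤ} {n : ℕ} (h : p.totalDegree ≤ n) :
    (p - 1).totalDegree ≤ n := by
  refine (totalDegree_sub _ _).trans ?_
  rw [totalDegree_one]
  exact max_le h (Nat.zero_le n)

/-- All children have degree at most one. -/
theorem children (h5 : SDrop) (h6 : SLin) (h : Pk F G a b e e' M) {f : List α}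
    (hd : (∑ x : α, X x * b (x :: f)).totalDegree ≤ 2) (x : α) : NN (b (x :: f)) := by
  have h1 := h5 α (fun x => b (x :: f)) (fun x t ht => h.posB t ht _) 1 hd x
  refine h6 α _ (fun t ht => h.posB t ht _) ?_ h1
  rw [const_b h]
  exact const_nn (h.e01' _)

theorem half (h5 : SDrop) (h6 : SLin) (h7 : SQuad) (h : Pk F G a b e e' M) {f : List α}
    (hb : b f = 0) (hF : F.totalDegree ≤ 2 ∨
      (F.totalDegree ≤ 3 ∧ ∃ g, e g = 1 ∧ (a g).totalDegree ≤ 1)) : NN (F * G) := by
  have he : e' f = 1 := by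
    have h1 := const_b h f
    rw [hb, map_zero] at h1
    linarith
  have hG : NN G := by
    intro m
    have h1 := h.gB f m
    rwa [hb, mul_zero, sub_zero, mul_one] at h1
  have hrec : ∑ x : α, X x * b (x :: f) = F - 1 := by
    rw [h.recB f, hb, he, C_1]
    ring
  refine NN.mul ?_ hG
  have hF1 : F = 1 + ∑ x : α, X x * b (x :: f) := by
    rw [hrec]
    ring
  rw [hF1]
  refine NN.one.add (NN.sum fun x _ => (NN.X x).mul ?_)
  rcases hF with hF | ⟨hF, g, hg, hga⟩
  · exact children h5 h6 h (by rw [hrec]; exact deg_sub_one hF) x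
  · have hd2 : (b (x :: f)).totalDegree ≤ 2 :=
      h5 α (fun x => b (x :: f)) (fun x t ht => h.posB t ht _) 2
        (by rw [hrec]; exact deg_sub_one hF) x
    rcases h.e01' (x :: f) with h0 | h0
    · have hrec2 : ∑ z : α, X z * b (z :: x :: f) = b (x :: f) - 1 := by
        rw [h.recB (x :: f), h0, map_zero, zero_mul, add_zero]
      have h1 : b (x :: f) = 1 + ∑ z : α, X z * b (z :: x :: f) := by
        rw [hrec2]
        ring
      rw [h1]
      exact NN.one.add (NN.sum fun z _ => (NN.X z).mul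
        (children h5 h6 h (by rw [hrec2]; exact deg_sub_one hd2) z))
    · have hag : gf (M g f) = a g := by
        rw [h.nn g f, hb, mul_zero, mul_zero, sub_zero, add_zero]
      refine h7 α (a g) (b (x :: f)) h.two ?_ hga ?_ ?_ (fun t ht => h.posB t ht _) ?_ hd2 ?_
      · rw [← hag]
        exact gf_ne_zero (h.ne g f)
      · rw [const_a h, hg]
        norm_num
      · rw [← hag]
        exact NN.gf _
      · rw [const_b h, h0]
        norm_num
      · rw [← h.nn g (x :: f)]
        exact NN.gf _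

omit [Fintype α] [DecidableEq α] in
theorem eq_zero_of_const {p : MvPolynomial α ℤ} (h : p.totalDegree ≤ 0)
    (h0 : constantCoeff p = 0) : p = 0 := by
  have h1 : p.totalDegree = 0 := Nat.le_zero.1 h
  rw [totalDegree_eq_zero_iff_eq_C] at h1
  rw [h1, show coeff 0 p = constantCoeff p from rfl, h0, map_zero]

theorem evt_pos {t : α → ℕ} {p : MvPolynomial α ℤ} (hg : Gen t p) (h1 : p.totalDegree ≤ 1)
    (h0 : constantCoeff p = 0) (hp : p ≠ 0) (hn : 0 ≤ evt t p) : 0 < evt t p := by
  have h2 : p = homogeneousComponent 1 p := by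
    have h3 := sum_homogeneousComponent p
    rcases Nat.le_one_iff_eq_zero_or_eq_one.1 h1 with h4 | h4
    · exact absurd (eq_zero_of_const h4.le h0) hp
    · rw [h4, Finset.sum_range_succ, Finset.sum_range_succ, Finset.sum_range_zero, zero_add,
        homogeneousComponent_zero, show coeff 0 p = constantCoeff p from rfl, h0, map_zero,
        zero_add] at h3
      exact h3.symm
  refine lt_of_le_of_ne hn ?_
  rw [h2]
  exact (hg 1 (by rw [← h2]; exact hp)).symm

theorem low (h1 : SRev) (h3 : SGen) (h4 : SDegA) (h5 : SDrop) (h6 : SLin) (h7 : SQuad)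
    (h : Pk F G a b e e' M) (hF : F.totalDegree ≤ 2) : NN (F * G) := by
  obtain ⟨t, ht, hgen⟩ := h3 α (Set.range b) h.finB
  obtain ⟨g, hg, hgd⟩ := h4 α G F _ _ _ _ _ (h1 α F G a b e e' M h) t ht
    (fun g => hgen _ ⟨_, rfl⟩) 0 hF
  refine half h5 h6 h7 h (f := g.reverse) (eq_zero_of_const hgd ?_) (Or.inl hF)
  rw [const_b h]
  have hg' : e' g.reverse = 1 := hg
  rw [hg']
  norm_num

theorem pos (h1 : SRev) (h3 : SGen) (h4 : SDegA) (h5 : SDrop) (h6 : SLin) (h7 : SQuad)
    (h8 : STwo) : SPos := by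
  intro α _ _ F G a b e e' M h hd
  by_cases hF : F.totalDegree ≤ 2
  · exact low h1 h3 h4 h5 h6 h7 h hF
  by_cases hG : G.totalDegree ≤ 2
  · have := low h1 h3 h4 h5 h6 h7 (h1 α F G a b e e' M h) hG
    rwa [mul_comm] at this
  have hF3 : F.totalDegree ≤ 3 := by omega
  have hG3 : G.totalDegree ≤ 3 := by omega
  obtain ⟨t, ht, hgen⟩ := h3 α (Set.range a ∪ Set.range b) (h.finA.union h.finB)
  obtain ⟨g, hg, hgd⟩ := h4 α F G a b e e' M h t ht
    (fun g => hgen _ (Or.inl ⟨_, rfl⟩)) 1 hG3
  obtain ⟨f0, hf0, hfd0⟩ := h4 α G F _ _ _ _ _ (h1 α F G a b e e' M h) t ht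
    (fun g => hgen _ (Or.inr ⟨_, rfl⟩)) 1 hF3
  obtain ⟨f, hf⟩ : ∃ f, f = f0.reverse := ⟨_, rfl⟩
  have hf1 : e' f = 1 := by rw [hf]; exact hf0
  have hfd : (b f).totalDegree ≤ 1 := by rw [hf]; exact hfd0
  by_cases hb : b f = 0
  · exact half h5 h6 h7 h hb (Or.inr ⟨hF3, g, hg, hgd⟩)
  by_cases ha : a g = 0
  · have := half h5 h6 h7 (h1 α F G a b e e' M h) (f := g.reverse)
      (by rw [List.reverse_reverse]; exact ha) (Or.inr ⟨hG3, f.reverse, by
        rw [List.reverse_reverse]; exact ⟨hf1, hfd⟩⟩)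
    rwa [mul_comm] at this
  exfalso
  have ha0 : constantCoeff (a g) = 0 := by rw [const_a h, hg]; norm_num
  have hb0 : constantCoeff (b f) = 0 := by rw [const_b h, hf1]; norm_num
  refine h8 α (a g) (b f) t ht hgd hfd ha0 hb0
    (evt_pos (hgen _ (Or.inl ⟨_, rfl⟩)) hgd ha0 ha (h.posA t ht g))
    (evt_pos (hgen _ (Or.inr ⟨_, rfl⟩)) hfd hb0 hb (h.posB t ht f)) ?_
  rw [← h.nn g f]
  exact NN.gf _

end

end Pool.Agent.H49.SW
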