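import Pool.Agent.H72.OF.Alg

set_option autoImplicit false

/-!
# Codes with short words: the system of polynomials
-/

namespace Pool.Agent.H49.SW

open Finset MvPolynomial
open Pool.Agent.H35.FC (gf)
open Pool.Agent.H72.OF (os)

/-- The value at a point with natural coordinates. -/
noncomputable def evt {α : Type} (t : α → ℕ) (p : MvPolynomial α ℤ) : ℤ :=
  eval (fun x => (t x : ℤ)) p

/-- The system: `os α = 1 - s`; `A_g = F (1 + (s - 1) a_g)`, `B_f = G (1 + (s - 1) b_f)`,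
`e`, `e'` are the indicators of the cuts, `M g f` is the set `N_(g,f)`. -/
structure Pk {α : Type} [Fintype α] [DecidableEq α] (F G : MvPolynomial α ℤ)
    (a b : List α → MvPolynomial α ℤ) (e e' : List α → ℤ)
    (M : List α → List α → Finset (List α)) : Prop where
  two : 2 ≤ Fintype.card α
  e01 : ∀ g, e g = 0 ∨ e g = 1
  e01' : ∀ f, e' f = 0 ∨ e' f = 1
  recA : ∀ g, ∑ x : α, X x * a (g ++ [x]) = a g - 1 + C (e g) * G
  recB : ∀ f, ∑ x : α, X x * b (x :: f) = b f - 1 + C (e' f) * F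
  nn : ∀ g f, gf (M g f) = a g + b f - os α * (a g * b f)
  ne : ∀ g f, (M g f).Nonempty
  cutR : ∀ g f w, w ∈ M g f → e' f = 1 → e (g ++ w) = 0
  cutL : ∀ g f w, w ∈ M g f → e g = 1 → e' (w ++ f) = 0
  F0 : constantCoeff F = 1
  G0 : constantCoeff G = 1
  posF : ∀ t : α → ℕ, (∀ x, 1 ≤ t x) → 0 < evt t F
  posG : ∀ t : α → ℕ, (∀ x, 1 ≤ t x) → 0 < evt t G
  posA : ∀ t : α → ℕ, (∀ x, 1 ≤ t x) → ∀ g, 0 ≤ evt t (a g)
  posB : ∀ t : α → ℕ, (∀ x, 1 ≤ t x) → ∀ f, 0 ≤ evt t (b f)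
  finA : (Set.range a).Finite
  finB : (Set.range b).Finite
  gA : ∀ g m, 0 ≤ coeff m (F * (1 - os α * a g))
  gB : ∀ f m, 0 ≤ coeff m (G * (1 - os α * b f))

/-- R1: the mirror image. -/
def SRev : Prop :=
  ∀ (α : Type) [Fintype α] [DecidableEq α] (F G : MvPolynomial α ℤ)
    (a b : List α → MvPolynomial α ℤ) (e e' : List α → ℤ) (M : List α → List α → Finset (List α)),
  Pk F G a b e e' M →
    Pk G F (fun g => b g.reverse) (fun f => a f.reverse) (fun g => e' g.reverse)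
      (fun f => e f.reverse) (fun g f => (M f.reverse g.reverse).image List.reverse)

/-- R2: the climb, for a function `A` (the values of `a` at `t`), `v` the value of `G`. -/
def SClimb : Prop :=
  ∀ (α : Type) [Fintype α] [DecidableEq α] (F G : MvPolynomial α ℤ)
    (a b : List α → MvPolynomial α ℤ) (e e' : List α → ℤ) (M : List α → List α → Finset (List α)),
  Pk F G a b e e' M → ∀ (t : α → ℕ) (τ : ℕ), 1 ≤ τ → (∀ x, τ ≤ t x) →
    ∃ g, e g = 1 ∧ (τ : ℤ) * (1 + ((∑ x, (t x : ℤ)) - 1) * evt t (a g)) < evt t G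

/-- A point at which no homogeneous component of `p` vanishes. -/
def Gen {α : Type} (t : α → ℕ) (p : MvPolynomial α ℤ) : Prop :=
  ∀ d, homogeneousComponent d p ≠ 0 → evt t (homogeneousComponent d p) ≠ 0

/-- R3: generic points exist. -/
def SGen : Prop :=
  ∀ (α : Type) [Fintype α] [DecidableEq α] (K : Set (MvPolynomial α ℤ)), K.Finite →
    ∃ t : α → ℕ, (∀ x, 1 ≤ t x) ∧ ∀ p ∈ K, Gen t p

/-- R4: the degree of `a g` for a good `g` (from `SClimb` at `z t`, `τ = z`, `z` large). -/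
def SDegA : Prop :=
  ∀ (α : Type) [Fintype α] [DecidableEq α] (F G : MvPolynomial α ℤ)
    (a b : List α → MvPolynomial α ℤ) (e e' : List α → ℤ) (M : List α → List α → Finset (List α)),
  Pk F G a b e e' M → ∀ (t : α → ℕ), (∀ x, 1 ≤ t x) → (∀ g, Gen t (a g)) →
    ∀ n : ℕ, G.totalDegree ≤ n + 2 → ∃ g, e g = 1 ∧ (a g).totalDegree ≤ n

/-- R5: the degree drops. -/
def SDrop : Prop :=
  ∀ (α : Type) [Fintype α] [DecidableEq α] (q : α → MvPolynomial α ℤ),
  (∀ x (t : α → ℕ), (∀ x, 1 ≤ t x) → 0 ≤ evt t (q x)) →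
    ∀ m : ℕ, (∑ x, X x * q x).totalDegree ≤ m + 1 → ∀ x, (q x).totalDegree ≤ m

/-- R6: polynomials of degree at most one. -/
def SLin : Prop :=
  ∀ (α : Type) [Fintype α] [DecidableEq α] (q : MvPolynomial α ℤ),
  (∀ t : α → ℕ, (∀ x, 1 ≤ t x) → 0 ≤ evt t q) → 0 ≤ constantCoeff q → q.totalDegree ≤ 1 →
    ∀ m, 0 ≤ coeff m q

/-- R7: the quadratic case: `a` linear with nonnegative coefficients, `q` of degree at most two
without constant term. -/
def SQuad : Prop :=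
  ∀ (α : Type) [Fintype α] [DecidableEq α] (a q : MvPolynomial α ℤ),
  2 ≤ Fintype.card α → a ≠ 0 → a.totalDegree ≤ 1 → constantCoeff a = 0 → (∀ m, 0 ≤ coeff m a) →
  (∀ t : α → ℕ, (∀ x, 1 ≤ t x) → 0 ≤ evt t q) → constantCoeff q = 0 → q.totalDegree ≤ 2 →
  (∀ m, 0 ≤ coeff m (a + q - os α * (a * q))) →
    ∀ m, 0 ≤ coeff m q

/-- R8: two linear forms are impossible. -/
def STwo : Prop :=
  ∀ (α : Type) [Fintype α] [DecidableEq α] (a b : MvPolynomial α ℤ) (t : α → ℕ),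
  (∀ x, 1 ≤ t x) → a.totalDegree ≤ 1 → b.totalDegree ≤ 1 → constantCoeff a = 0 →
  constantCoeff b = 0 → 0 < evt t a → 0 < evt t b →
  ¬ ∀ m, 0 ≤ coeff m (a + b - os α * (a * b))

/-- R9: the result. -/
def SPos : Prop :=
  ∀ (α : Type) [Fintype α] [DecidableEq α] (F G : MvPolynomial α ℤ)
    (a b : List α → MvPolynomial α ℤ) (e e' : List α → ℤ) (M : List α → List α → Finset (List α)),
  Pk F G a b e e' M → F.totalDegree + G.totalDegree ≤ 6 → ∀ m, 0 ≤ coeff m (F * G)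

end Pool.Agent.H49.SW
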