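import Pool.Agent.H41.OF.Sign
import Pool.Agent.H49.SW.Stm

set_option autoImplicit false

/-!
# Signs, as polynomials
-/

namespace Pool.Agent.H49.SW

open Finset MvPolynomial
open Pool.Agent.H35.FC (gf)
open Pool.Agent.H72.OF (sub os sub_os os_ne_zero)
open Pool.Agent.H41.OF (unit_eq evR evR_one evR_pos evR_continuous side)

theorem os_dvd {α : Type} [Fintype α] [DecidableEq α] (y : α) (p : MvPolynomial α ℤ) :
    os α ∣ p - sub y p := by
  have h : (Ideal.Quotient.mk (Ideal.span {os α})).comp (sub y) =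
      Ideal.Quotient.mk (Ideal.span {os α}) := by
    apply ringHom_ext
    · intro r
      simp [sub]
    · intro x
      rw [RingHom.comp_apply]
      by_cases hx : x = y
      · subst hx
        have h1 : sub x (X x) = 1 - ∑ z ∈ univ.erase x, (X z : MvPolynomial α ℤ) := by
          simp [sub]
        rw [h1, Ideal.Quotient.eq, Ideal.mem_span_singleton]
        refine ⟨1, ?_⟩
        have h2 : os α = 1 - ∑ z : α, (X z : MvPolynomial α ℤ) := rfl
        rw [h2, ← Finset.add_sum_erase univ (fun z => (X z : MvPolynomial α ℤ))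
          (Finset.mem_univ x)]
        ring
      · simp [sub, hx]
  have h2 := congrArg (fun f => f p) h
  simp only [RingHom.comp_apply] at h2
  have h3 := Ideal.mem_span_singleton.1 (Ideal.Quotient.eq.1 h2)
  rw [← neg_sub, dvd_neg]
  exact h3

theorem evR_zero {α : Type} (t : α → ℕ) (p : MvPolynomial α ℤ) :
    evR t 0 p = ((constantCoeff p : ℤ) : ℝ) := by
  have h : evR t 0 = (Int.castRingHom ℝ).comp constantCoeff := by
    apply ringHom_ext
    · intro r
      simp [evR]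
    · intro x
      simp [evR]
  rw [h]
  rfl

theorem const_nonneg {α : Type} (t : α → ℕ) (F : MvPolynomial α ℤ)
    (hne : ∀ l : ℝ, 0 < l → evR t l F ≠ 0) (h1 : 0 < evt t F) : 0 ≤ constantCoeff F := by
  by_contra hcon
  push Not at hcon
  have h2 : 0 < evR t 1 F := by
    rw [evR_one]
    exact_mod_cast h1
  have h0 : evR t 0 F < 0 := by
    rw [evR_zero]
    exact_mod_cast hcon
  have h3 : (0 : ℝ) ∈ Set.uIcc (evR t 0 F) (evR t 1 F) := by
    rw [Set.mem_uIcc]
    left
    exact ⟨h0.le, h2.le⟩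
  obtain ⟨l, hl, hl2⟩ := intermediate_value_uIcc ((evR_continuous t F).continuousOn) h3
  have hl2' : evR t l F = 0 := hl2
  have hl0 : 0 ≤ l := by
    rw [Set.uIcc_of_le zero_le_one] at hl
    exact hl.1
  rcases hl0.eq_or_lt with h | h
  · rw [← h] at hl2'
    rw [hl2'] at h0
    exact lt_irrefl _ h0
  · exact hne l h hl2'

theorem eval_os {α : Type} [Fintype α] (t : α → ℕ) :
    evt t (os α) = 1 - ((∑ x, t x : ℕ) : ℤ) := by
  have h2 : os α = 1 - ∑ z : α, (X z : MvPolynomial α ℤ) := rfl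
  rw [h2, evt, map_sub, map_one, map_sum]
  simp

theorem degree_unit {α : Type} {σ : ℤ} (hσ : σ * σ = 1) (F : MvPolynomial α ℤ) :
    (C σ * F).totalDegree = F.totalDegree := by
  have h : σ = 1 ∨ σ = -1 := by
    rcases Int.isUnit_iff.1 (IsUnit.of_mul_eq_one σ hσ) with h | h
    · exact Or.inl h
    · exact Or.inr h
  rcases h with rfl | rfl
  · rw [map_one, one_mul]
  · rw [map_neg, map_one, neg_one_mul, totalDegree_neg]

theorem side_poly {α : Type} [Fintype α] [DecidableEq α] (h2 : 2 ≤ Fintype.card α) (y : α)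
    {ι : Type} [Nonempty ι] (A : ι → Finset (List α)) (hA : ∀ i, (A i).Nonempty)
    (F : MvPolynomial α ℤ) (a0 : ι → MvPolynomial α ℤ) (ha0 : ∀ i, gf (A i) = F * a0 i)
    (σ : ℤ) (hσ : σ * σ = 1) (hs : ∀ i, sub y (a0 i) = C σ) (hc : IsUnit (constantCoeff F)) :
    ∃ a : ι → MvPolynomial α ℤ, (∀ i, a0 i = C σ * (1 - os α * a i)) ∧
      constantCoeff (C σ * F) = 1 ∧
      ∀ t : α → ℕ, (∀ x, 1 ≤ t x) → 0 < evt t (C σ * F) ∧ ∀ i, 0 ≤ evt t (a i) := by
  have hd : ∀ i, os α ∣ a0 i - C σ := by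
    intro i
    have h := os_dvd y (a0 i)
    rwa [hs i] at h
  choose k hk using hd
  have hCC : (C σ : MvPolynomial α ℤ) * C σ = 1 := by rw [← map_mul, hσ, map_one]
  have hT : ∀ t : α → ℕ, (∀ x, 1 ≤ t x) → 2 ≤ ∑ x, t x := by
    intro t ht
    calc 2 ≤ Fintype.card α := h2
      _ = ∑ _x : α, 1 := by simp
      _ ≤ ∑ x, t x := Finset.sum_le_sum fun x _ => ht x
  have ha : ∀ i, a0 i = C σ * (1 - os α * -(C σ * k i)) := by
    intro i
    linear_combination hk i - os α * k i * hCC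
  have hpos : ∀ t : α → ℕ, (∀ x, 1 ≤ t x) →
      0 < evt t (C σ * F) ∧ ∀ i, 0 ≤ evt t (-(C σ * k i)) := by
    intro t ht
    obtain ⟨hu, hua⟩ := side t ht (hT t ht) y A hA F a0 ha0 σ hσ hs
    have hu' : 0 < evt t (C σ * F) := by
      rw [evt, map_mul, eval_C]
      exact hu
    refine ⟨hu', fun i => ?_⟩
    obtain ⟨n, hn⟩ := hua i
    have h3 : evt t (gf (A i)) = evt t (C σ * F) * (1 - evt t (os α) * evt t (-(C σ * k i))) := by
      rw [ha0 i, ha i]
      simp only [evt, map_mul, map_sub, map_one]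
      ring
    have h4 : evt t (gf (A i)) = evt t (C σ * F) * (1 + ((∑ x, t x : ℕ) - 1) * n) := by
      rw [evt, hn, evt, map_mul, eval_C]
    rw [h3] at h4
    have h5 := mul_left_cancel₀ hu'.ne' h4
    rw [eval_os] at h5
    have hT1 : (2 : ℤ) ≤ ((∑ x, t x : ℕ) : ℤ) := by exact_mod_cast hT t ht
    have h6 : (((∑ x, t x : ℕ) : ℤ) - 1) * (evt t (-(C σ * k i)) - n) = 0 := by
      linear_combination h5
    rcases mul_eq_zero.1 h6 with h7 | h7
    · exfalso
      linarith
    · have h8 : evt t (-(C σ * k i)) = n := by linarith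
      rw [h8]
      exact Int.natCast_nonneg n
  refine ⟨fun i => -(C σ * k i), ha, ?_, hpos⟩
  have hc2 : IsUnit (constantCoeff (C σ * F)) := by
    rw [map_mul, constantCoeff_C]
    exact (IsUnit.of_mul_eq_one σ hσ).mul hc
  have h1t : ∀ x : α, 1 ≤ (fun _ : α => 1) x := fun _ => le_rfl
  have h9 : 0 ≤ constantCoeff (C σ * F) := by
    refine const_nonneg (fun _ => 1) _ ?_ (hpos _ h1t).1
    intro l hl h
    obtain ⟨i0⟩ := ‹Nonempty ι›
    have h10 := evR_pos (fun _ => 1) h1t hl (hA i0)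
    have h11 : gf (A i0) = (C σ * F) * (C σ * a0 i0) := by
      rw [ha0 i0]
      linear_combination (-(F * a0 i0)) * hCC
    rw [h11, map_mul, h, zero_mul] at h10
    exact lt_irrefl _ h10
  rcases Int.isUnit_iff.1 hc2 with h10 | h10
  · exact h10
  · rw [h10] at h9
    norm_num at h9

theorem sign_poly {α : Type} [Fintype α] [DecidableEq α] (h2 : 2 ≤ Fintype.card α)
    {ι κ : Type} [Nonempty ι] [Nonempty κ] (A : ι → Finset (List α)) (B : κ → Finset (List α))
    (hA : ∀ i, (A i).Nonempty) (hB : ∀ j, (B j).Nonempty)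
    (F G : MvPolynomial α ℤ) (N : ι → κ → MvPolynomial α ℤ) (hF : ∀ i, F ∣ gf (A i))
    (hG : ∀ j, G ∣ gf (B j)) (hQ : constantCoeff (F * G) = 1)
    (hGF : ∀ i j, gf (A i) * gf (B j) = F * G * (1 - os α * N i j)) :
    ∃ (F' G' : MvPolynomial α ℤ) (a : ι → MvPolynomial α ℤ) (b : κ → MvPolynomial α ℤ),
      F' * G' = F * G ∧ F'.totalDegree = F.totalDegree ∧ G'.totalDegree = G.totalDegree ∧
      (∀ i, gf (A i) = F' * (1 - os α * a i)) ∧ (∀ j, gf (B j) = G' * (1 - os α * b j)) ∧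
      (∀ i j, N i j = a i + b j - os α * (a i * b j)) ∧
      constantCoeff F' = 1 ∧ constantCoeff G' = 1 ∧
      ∀ t : α → ℕ, (∀ x, 1 ≤ t x) → 0 < evt t F' ∧ 0 < evt t G' ∧ (∀ i, 0 ≤ evt t (a i)) ∧
        ∀ j, 0 ≤ evt t (b j) := by
  obtain ⟨y⟩ : Nonempty α := by
    rw [← Fintype.card_pos_iff]
    omega
  have hFG0 : F * G ≠ 0 := by
    intro h
    rw [h, map_zero] at hQ
    exact zero_ne_one hQ
  choose a ha using hF
  choose b hb using hG
  have hab : ∀ i j, a i * b j = 1 - os α * N i j := by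
    intro i j
    have h := hGF i j
    rw [ha i, hb j] at h
    refine mul_left_cancel₀ hFG0 ?_
    rw [← h]
    ring
  have hsub : ∀ i j, sub y (a i) * sub y (b j) = 1 := by
    intro i j
    rw [← map_mul, hab, map_sub, map_one, map_mul, sub_os, zero_mul, sub_zero]
  obtain ⟨i0⟩ := ‹Nonempty ι›
  obtain ⟨j0⟩ := ‹Nonempty κ›
  obtain ⟨σ, hσ, hi0, hj0⟩ := unit_eq (hsub i0 j0)
  have hCC : (C σ : MvPolynomial α ℤ) * C σ = 1 := by rw [← map_mul, hσ, map_one]
  have hsa : ∀ i, sub y (a i) = C σ := by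
    intro i
    have h := hsub i j0
    rw [hj0] at h
    calc sub y (a i) = sub y (a i) * C σ * C σ := by rw [mul_assoc, hCC, mul_one]
      _ = C σ := by rw [h, one_mul]
  have hsb : ∀ j, sub y (b j) = C σ := by
    intro j
    have h := hsub i0 j
    rw [hi0] at h
    calc sub y (b j) = C σ * (C σ * sub y (b j)) := by rw [← mul_assoc, hCC, one_mul]
      _ = C σ := by rw [h, mul_one]
  have : Nonempty ι := ⟨i0⟩
  have : Nonempty κ := ⟨j0⟩
  have hQ' : constantCoeff F * constantCoeff G = 1 := by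
    rw [← map_mul]
    exact hQ
  obtain ⟨a', ha', hFc, hFp⟩ := side_poly h2 y A hA F a ha σ hσ hsa
    (IsUnit.of_mul_eq_one _ hQ')
  obtain ⟨b', hb', hGc, hGp⟩ := side_poly h2 y B hB G b hb σ hσ hsb
    (IsUnit.of_mul_eq_one _ (by rw [mul_comm]; exact hQ'))
  refine ⟨C σ * F, C σ * G, a', b', ?_, degree_unit hσ F, degree_unit hσ G, ?_, ?_, ?_, hFc, hGc,
    fun t ht => ⟨(hFp t ht).1, (hGp t ht).1, (hFp t ht).2, (hGp t ht).2⟩⟩
  · linear_combination (F * G) * hCC
  · intro i
    rw [ha i, ha' i]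
    ring
  · intro j
    rw [hb j, hb' j]
    ring
  · intro i j
    have h := hab i j
    rw [ha' i, hb' j] at h
    refine mul_left_cancel₀ (os_ne_zero y) ?_
    linear_combination h - (1 - os α * a' i) * (1 - os α * b' j) * hCC

end Pool.Agent.H49.SW
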