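import Pool.Agent.H86.SW.Rec
import Pool.Agent.H86.OG.Til
import Pool.Agent.H49.SW.Sign
import Pool.Agent.H49.SW.Pos

set_option autoImplicit false

/-!
# The system of a finite maximal code
-/

namespace Pool.Agent.H49.SW

open Finset MvPolynomial
open Pool.Agent.H35
open Pool.Agent.H35.FC (IsCode IsPrefixCode Facts Tiles gf SGf STree of_tiles)
open Pool.Agent.H35.FS (SMax)
open Pool.Agent.H72.OF (os os_ne_zero)
open Pool.Agent.H86.OG

theorem const_gf {α : Type} [DecidableEq α] {L : Finset (List α)} (h : [] ∉ L) :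
    constantCoeff (gf L) = 0 := by
  unfold gf
  rw [map_sum]
  refine Finset.sum_eq_zero fun w hw => ?_
  rcases w with _ | ⟨x, w⟩
  · exact absurd hw h
  · rw [List.map_cons, List.prod_cons, map_mul, constantCoeff_X, zero_mul]

theorem const_os (α : Type) [Fintype α] : constantCoeff (os α) = 1 := by
  unfold os
  rw [map_sub, map_one, map_sum]
  simp

theorem fin_range {α ι : Type} [Fintype α] [DecidableEq α] (y : α) {L : ℕ}
    (A : ι → Finset (List α)) (hA : ∀ i, ∀ w ∈ A i, w.length ≤ L)
    {F : MvPolynomial α ℤ} (hF : F ≠ 0) {a : ι → MvPolynomial α ℤ}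
    (ha : ∀ i, gf (A i) = F * (1 - os α * a i)) : (Set.range a).Finite := by
  have hW : {w : List α | w.length ≤ L}.Finite := List.finite_length_le α L
  refine Set.Finite.of_injOn (f := fun p => F * (1 - os α * p))
    (t := gf '' {K : Finset (List α) | K ⊆ hW.toFinset}) ?_ ?_ ?_
  · rintro p ⟨i, rfl⟩
    refine ⟨A i, ?_, ha i⟩
    intro w hw
    exact (Set.Finite.mem_toFinset _).2 (hA i w hw)
  · rintro p - q - h
    have h1 : F * (1 - os α * p) = F * (1 - os α * q) := h
    have h2 := mul_left_cancel₀ hF h1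
    refine mul_left_cancel₀ (os_ne_zero y) ?_
    linear_combination -h2
  · refine Set.Finite.image _ ?_
    have h1 : {K : Finset (List α) | K ⊆ hW.toFinset} =
        ((hW.toFinset.powerset : Finset (Finset (List α))) : Set (Finset (List α))) := by
      ext K
      simp
    rw [h1]
    exact Finset.finite_toSet _

open Classical in
/-- A code with a tiling is factorizing or has the system. -/
theorem pkP (hgf : SGf) {α : Type} [Fintype α] [DecidableEq α] (h2 : 2 ≤ Fintype.card α)
    {C S P N : Finset (List α)} (hC : IsCode (C : Set (List α)))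
    (hT : Tiles (C : Set (List α)) S P N) :
    (∃ S P : Set (List α), S.Finite ∧ P.Finite ∧ Tiles (C : Set (List α)) S P ∅) ∨
    ∃ (F G : MvPolynomial α ℤ) (a b : List α → MvPolynomial α ℤ) (e e' : List α → ℤ)
      (M : List α → List α → Finset (List α)), Pk F G a b e e' M ∧
      1 - gf C = os α * (F * G) := by
  obtain ⟨y⟩ : Nonempty α := by
    rw [← Fintype.card_pos_iff]
    omega
  haveI : Nonempty α := ⟨y⟩
  obtain ⟨L, hL⟩ : ∃ L : ℕ, ∀ w ∈ C ∪ S ∪ P ∪ N, w.length ≤ L :=
    ⟨(C ∪ S ∪ P ∪ N).sup List.length, fun w hw => Finset.le_sup (f := List.length) hw⟩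
  have hB : Base (C : Set (List α)) (S : Set (List α)) (P : Set (List α)) (N : Set (List α)) L :=
    ⟨hC, hT, fun w hw => hL w (by
      simp only [Finset.mem_union]
      exact Or.inl (Or.inl (Or.inl (by exact_mod_cast hw)))), fun w hw => hL w (by
      simp only [Finset.mem_union]
      exact Or.inl (Or.inl (Or.inr (by exact_mod_cast hw)))), fun w hw => hL w (by
      simp only [Finset.mem_union]
      exact Or.inl (Or.inr (by exact_mod_cast hw))), fun w hw => hL w (by
      simp only [Finset.mem_union]
      exact Or.inr (by exact_mod_cast hw))⟩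
  by_cases hN : ∃ g f, Nset (C : Set (List α)) S P g f = ∅
  · obtain ⟨g, f, hgf⟩ := hN
    left
    refine ⟨Aset C S g, Bset C P f, aset_finite hB g, bset_finite hB f, ?_⟩
    rw [← hgf]
    exact partP hB g f
  right
  have hne : ∀ g f, (Nset (C : Set (List α)) S P g f).Nonempty := by
    intro g f
    rw [Set.nonempty_iff_ne_empty]
    exact fun h => hN ⟨g, f, h⟩
  have hPne : (P : Set (List α)).Nonempty := by
    obtain ⟨t, ht⟩ := exists_fact hB [] [] (w := List.replicate (L + 1) y) (by simp)
    obtain ⟨k, -, p, hp, -⟩ := lc_of_bset ht.2.2.1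
    exact ⟨p, hp⟩
  have hSne : (S : Set (List α)).Nonempty := by
    obtain ⟨t, ht⟩ := exists_fact hB [] [] (w := List.replicate (L + 1) y) (by simp)
    obtain ⟨s, hs, -⟩ := rc_of_aset ht.1
    exact ⟨s, hs⟩
  have hos0 : os α ≠ 0 := os_ne_zero y
  have hgf' : ∀ g f, 1 - gf C = os α * ((1 - gf C) * gf (nset_finite hB g f).toFinset +
      gf (aset_finite hB g).toFinset * gf (bset_finite hB f).toFinset) := by
    intro g f
    refine hgf α C _ _ _ hC ?_
    simpa only [Set.Finite.coe_toFinset] using partP hB g f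
  obtain ⟨Q, hQ⟩ : ∃ Q, Q = (1 - gf C) * gf (nset_finite hB [] []).toFinset +
      gf (aset_finite hB []).toFinset * gf (bset_finite hB []).toFinset := ⟨_, rfl⟩
  have hcQ : 1 - gf C = os α * Q := by rw [hQ]; exact hgf' [] []
  have hGF : ∀ g f, gf (aset_finite hB g).toFinset * gf (bset_finite hB f).toFinset =
      Q * (1 - os α * gf (nset_finite hB g f).toFinset) := by
    intro g f
    have h1 := hgf' g f
    rw [hcQ] at h1
    have h2 := mul_left_cancel₀ hos0 h1
    linear_combination -h2
  have hQ1 : constantCoeff Q = 1 := by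
    have h1 := congrArg constantCoeff hcQ
    rw [map_sub, map_one, const_gf (fun h => hC.1 (by exact_mod_cast h)), map_mul, const_os,
      one_mul, sub_zero] at h1
    exact h1.symm
  have hQ0 : Q ≠ 0 := by
    intro h
    rw [h, map_zero] at hQ1
    exact zero_ne_one hQ1
  obtain ⟨F0, G0, hFG0, hF0, hG0⟩ := H86.OF.split_dvd Q hQ0
    (fun g => gf (aset_finite hB g).toFinset) (fun f => gf (bset_finite hB f).toFinset)
    (fun g f => by
      rw [hGF g f]
      exact dvd_mul_right _ _)
  obtain ⟨F, G, a, b, hFG, -, -, hFa, hGb, hnn, hF1, hG1, hpos⟩ := sign_poly h2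
    (fun g => (aset_finite hB g).toFinset) (fun f => (bset_finite hB f).toFinset)
    (fun g => by
      obtain ⟨v, hv⟩ := aset_nonempty hB g
      exact ⟨v, (Set.Finite.mem_toFinset _).2 hv⟩)
    (fun f => by
      obtain ⟨v, hv⟩ := bset_nonempty hB f
      exact ⟨v, (Set.Finite.mem_toFinset _).2 hv⟩)
    F0 G0 (fun g f => gf (nset_finite hB g f).toFinset) hF0 hG0 (by rw [← hFG0]; exact hQ1)
    (fun g f => by rw [hGF g f, hFG0])
  have hQFG : Q = F * G := by rw [hFG, hFG0]
  have hFne : F ≠ 0 := by
    intro h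
    rw [h, map_zero] at hF1
    exact zero_ne_one hF1
  have hGne : G ≠ 0 := by
    intro h
    rw [h, map_zero] at hG1
    exact zero_ne_one hG1
  have hs : ∑ x : α, (X x : MvPolynomial α ℤ) = 1 - os α := by
    unfold os
    ring
  refine ⟨F, G, a, b, fun g => if RC (C : Set (List α)) S g then 1 else 0,
    fun f => if LC (C : Set (List α)) P f then 1 else 0,
    fun g f => (nset_finite hB g f).toFinset, ?_, by rw [hcQ, hQFG]⟩
  refine ⟨h2, ?_, ?_, ?_, ?_, hnn, ?_, ?_, ?_, hF1, hG1, fun t ht => (hpos t ht).1,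
    fun t ht => (hpos t ht).2.1, fun t ht => (hpos t ht).2.2.1,
    fun t ht => (hpos t ht).2.2.2, ?_, ?_, ?_, ?_⟩
  · intro g
    split_ifs <;> simp
  · intro f
    split_ifs <;> simp
  · intro g
    have h1 := H86.SW.recA_gf hB hPne g
    simp only [hFa] at h1
    have h3 : ∑ x : α, X x * (F * (1 - os α * a (g ++ [x]))) =
        F * ((1 - os α) - os α * ∑ x : α, X x * a (g ++ [x])) := by
      rw [← hs, Finset.mul_sum, ← Finset.sum_sub_distrib, Finset.mul_sum]
      refine Finset.sum_congr rfl fun x _ => ?_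
      ring
    have h4 : gf C - 1 = -(os α * (F * G)) := by
      rw [← hQFG, ← hcQ]
      ring
    have h5 : (MvPolynomial.C (if RC (C : Set (List α)) S g then (1 : ℤ) else 0) : MvPolynomial α ℤ) =
        if RC (C : Set (List α)) S g then 1 else 0 := by
      split_ifs <;> simp
    rw [h5]
    rw [h3, h4] at h1
    refine mul_left_cancel₀ (mul_ne_zero hFne hos0) ?_
    linear_combination -h1
  · intro f
    have h1 := H86.SW.recB_gf hB hSne f
    simp only [hGb] at h1
    have h3 : ∑ x : α, X x * (G * (1 - os α * b (x :: f))) =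
        G * ((1 - os α) - os α * ∑ x : α, X x * b (x :: f)) := by
      rw [← hs, Finset.mul_sum, ← Finset.sum_sub_distrib, Finset.mul_sum]
      refine Finset.sum_congr rfl fun x _ => ?_
      ring
    have h4 : gf C - 1 = -(os α * (F * G)) := by
      rw [← hQFG, ← hcQ]
      ring
    have h5 : (MvPolynomial.C (if LC (C : Set (List α)) P f then (1 : ℤ) else 0) : MvPolynomial α ℤ) =
        if LC (C : Set (List α)) P f then 1 else 0 := by
      split_ifs <;> simp
    rw [h5]
    rw [h3, h4] at h1
    refine mul_left_cancel₀ (mul_ne_zero hGne hos0) ?_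
    linear_combination -h1
  · intro g f
    obtain ⟨w, hw⟩ := hne g f
    exact ⟨w, (Set.Finite.mem_toFinset _).2 hw⟩
  · intro g f w hw hf
    have hw' : w ∈ Nset (C : Set (List α)) S P g f := (Set.Finite.mem_toFinset _).1 hw
    have hf' : LC (C : Set (List α)) P f := by
      by_contra hcon
      simp [hcon] at hf
    rw [if_neg]
    intro hr
    exact ncut (u1 := w) (u2 := []) hC (by rwa [List.append_nil]) hr (by rwa [List.nil_append])
  · intro g f w hw hg
    have hw' : w ∈ Nset (C : Set (List α)) S P g f := (Set.Finite.mem_toFinset _).1 hw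
    have hg' : RC (C : Set (List α)) S g := by
      by_contra hcon
      simp [hcon] at hg
    rw [if_neg]
    intro hr
    exact ncut (u1 := []) (u2 := w) hC (by rwa [List.nil_append]) (by rwa [List.append_nil]) hr
  · exact fin_range y (fun g => (aset_finite hB g).toFinset)
      (fun g w hw => aset_le hB ((Set.Finite.mem_toFinset _).1 hw)) hFne hFa
  · exact fin_range y (fun f => (bset_finite hB f).toFinset)
      (fun f w hw => bset_le hB ((Set.Finite.mem_toFinset _).1 hw)) hGne hGb
  · intro g
    rw [← hFa g]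
    exact NN.gf _
  · intro f
    rw [← hGb f]
    exact NN.gf _

end Pool.Agent.H49.SW
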