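import Pool.Agent.H49.SW.Asm

set_option autoImplicit false

/-!
# The dichotomy for finite maximal codes, from the rows
-/

namespace Pool.Agent.H49.SW

open Finset MvPolynomial
open Pool.Agent.H35
open Pool.Agent.H35.FC (IsCode IsPrefixCode Facts Tiles gf SGf STree of_tiles)
open Pool.Agent.H35.FS (SMax)
open Pool.Agent.H72.OF (os os_ne_zero coeff_os)
open Pool.Agent.H86.OG (STil)

theorem degree_word {α : Type} (w : List α) :
    (w.map (X : α → MvPolynomial α ℤ)).prod.totalDegree ≤ w.length := by
  induction w with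
  | nil => simp
  | cons x w ih =>
    rw [List.map_cons, List.prod_cons, List.length_cons]
    refine (totalDegree_mul _ _).trans ?_
    have := totalDegree_X (R := ℤ) x
    omega

theorem degree_gf {α : Type} [DecidableEq α] {C : Finset (List α)} {n : ℕ}
    (h : ∀ w ∈ C, w.length ≤ n) : (gf C).totalDegree ≤ n := by
  unfold gf
  refine totalDegree_finsetSum_le fun w hw => ?_
  exact (degree_word w).trans (h w hw)

theorem degree_os {α : Type} [Fintype α] [DecidableEq α] (y : α) : 1 ≤ (os α).totalDegree := by
  have h : coeff (Finsupp.single y 1) (os α) ≠ 0 := by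
    rw [coeff_os]
    norm_num
  have h1 := le_totalDegree (mem_support_iff.2 h)
  simpa using h1

theorem degree_le {α : Type} [Fintype α] [DecidableEq α] (y : α) {C : Finset (List α)} {n : ℕ}
    (h : ∀ w ∈ C, w.length ≤ n + 1) {F G : MvPolynomial α ℤ} (hF : F ≠ 0) (hG : G ≠ 0)
    (hC : 1 - gf C = os α * (F * G)) : F.totalDegree + G.totalDegree ≤ n := by
  have h1 : (1 - gf C).totalDegree ≤ n + 1 := by
    refine (totalDegree_sub _ _).trans ?_
    rw [totalDegree_one]
    exact max_le (Nat.zero_le _) (degree_gf h)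
  rw [hC, totalDegree_mul_of_isDomain (os_ne_zero y) (mul_ne_zero hF hG),
    totalDegree_mul_of_isDomain hF hG] at h1
  have := degree_os y
  omega

/-- Over at most one letter, a code is a prefix code. -/
theorem prefix_of_subsingleton {α : Type} [Subsingleton α] {C : Finset (List α)}
    (hC : IsCode (C : Set (List α))) : IsPrefixCode (C : Set (List α)) := by
  refine ⟨hC.1, fun u hu v hv _ => ?_⟩
  have hu' : u ∈ C := by exact_mod_cast hu
  have hv' : v ∈ C := by exact_mod_cast hv
  have hlen : ∀ x y : List α, x.length = y.length → x = y := by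
    intro x
    induction x with
    | nil =>
      intro y h
      exact (List.length_eq_zero_iff.1 h.symm).symm
    | cons a x ih =>
      intro y h
      rcases y with _ | ⟨b, y⟩
      · simp at h
      · rw [Subsingleton.elim a b, ih y (by simpa using h)]
  have h := hC.2 [u, v] [v, u] (by simp [hu', hv']) (by simp [hu', hv']) (hlen _ _ (by simp; omega))
  simpa using (List.cons.inj h).1

/-- The dichotomy. -/
theorem shortG (h1 : SRev) (h3 : SGen) (h4 : SDegA) (h5 : SDrop) (h6 : SLin) (h7 : SQuad)
    (h8 : STwo) (hTil : STil) (hMax : SMax) (hGf : SGf) (hTree : STree)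
    {α : Type} [Fintype α] [DecidableEq α] (C : Finset (List α))
    (hC : IsCode (C : Set (List α)))
    (hmax : ∀ D : Set (List α), IsCode D → (C : Set (List α)) ⊆ D → D = C) :
    (∃ D : Finset (List α), IsPrefixCode (D : Set (List α)) ∧
      ∃ F : List α → List α, Set.BijOn F C D ∧ ∀ w ∈ C, (F w).Perm w) ∨
    ∃ F G : MvPolynomial α ℤ, F ≠ 0 ∧ G ≠ 0 ∧ 1 - gf C = os α * (F * G) ∧
      3 ≤ F.totalDegree ∧ 3 ≤ G.totalDegree ∧ 7 ≤ F.totalDegree + G.totalDegree := by
  by_cases hk : 2 ≤ Fintype.card α
  · have hcomp := hMax α C hC hmax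
    have hne : Nonempty α := by
      rw [← Fintype.card_pos_iff]
      omega
    obtain ⟨S0, P0, N0, hT0, -, -⟩ := hTil α C hC hcomp
    rcases pkP hGf hk hC hT0 with ⟨S, P, hSf, hPf, hT⟩ | ⟨F, G, a, b, e, e', M, h, hFG⟩
    · exact Or.inl (of_tiles hGf hTree C hC S P hSf hPf hT)
    · have hfin : NN (F * G) → ∃ D : Finset (List α), IsPrefixCode (D : Set (List α)) ∧
          ∃ F : List α → List α, Set.BijOn F C D ∧ ∀ w ∈ C, (F w).Perm w :=
        fun hn => hTree α C (F * G) (fun h => hC.1 (by exact_mod_cast h)) hn hFG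
      by_cases hF : F.totalDegree ≤ 2
      · exact Or.inl (hfin (low h1 h3 h4 h5 h6 h7 h hF))
      by_cases hG : G.totalDegree ≤ 2
      · refine Or.inl (hfin ?_)
        rw [mul_comm]
        exact low h1 h3 h4 h5 h6 h7 (h1 α F G a b e e' M h) hG
      by_cases hd : F.totalDegree + G.totalDegree ≤ 6
      · exact Or.inl (hfin (pos h1 h3 h4 h5 h6 h7 h8 α F G a b e e' M h hd))
      · refine Or.inr ⟨F, G, ?_, ?_, hFG, by omega, by omega, by omega⟩
        · intro h0
          rw [h0, totalDegree_zero] at hF
          omega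
        · intro h0
          rw [h0, totalDegree_zero] at hG
          omega
  · left
    haveI : Subsingleton α := by
      rw [← Fintype.card_le_one_iff_subsingleton]
      omega
    exact ⟨C, prefix_of_subsingleton hC, id, Set.bijOn_id _, fun w _ => List.Perm.refl w⟩

end Pool.Agent.H49.SW
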